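import Pool.Agent.H66.Aff

/-!
# Integrals over affine subspaces in coordinates
-/

set_option autoImplicit false

namespace Pool.Agent.H85.SL

open MeasureTheory Matrix
open scoped ENNReal

theorem affine_int (n k : ℕ) (S : Submodule ℝ (EuclideanSpace ℝ (Fin n)))
    (hS : Module.finrank ℝ S = k) (a : EuclideanSpace ℝ (Fin n)) :
    ∃ (u : Fin n → Fin k → ℝ) (c : Fin n → ℝ), ∑ i, vecMulVec (u i) (u i) = 1 ∧
      ∀ G : (Fin n → ℝ) → ENNReal, Measurable G →
        ∫⁻ x in {x : EuclideanSpace ℝ (Fin n) | x - a ∈ S}, G (fun i => x i) ∂(μHE[k]) =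
          ∫⁻ y : Fin k → ℝ, G (fun i => u i ⬝ᵥ y - c i) := by
  classical
  let b : OrthonormalBasis (Fin k) ℝ S := (stdOrthonormalBasis ℝ S).reindex (finCongr hS)
  refine ⟨fun i d => (b d : EuclideanSpace ℝ (Fin n)) i, fun i => - a i, ?_, ?_⟩
  · ext d c
    rw [Matrix.sum_apply]
    simp only [vecMulVec_apply]
    have h := b.inner_eq_ite d c
    have h2 : inner ℝ (b d) (b c) = inner ℝ (b d : EuclideanSpace ℝ (Fin n)) (b c) := rfl
    rw [h2, PiLp.inner_apply] at h
    simp only [RCLike.inner_apply, conj_trivial] at h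
    rw [Matrix.one_apply, ← h]
    exact Finset.sum_congr rfl fun i _ => mul_comm _ _
  · intro G hG
    let g : S → EuclideanSpace ℝ (Fin n) := fun y => (y : EuclideanSpace ℝ (Fin n)) + a
    have hg : Isometry g := (IsometryEquiv.addRight a).isometry.comp isometry_subtype_coe
    have hr : {x : EuclideanSpace ℝ (Fin n) | x - a ∈ S} = Set.range g := by
      ext x
      constructor
      · intro hx
        exact ⟨⟨x - a, hx⟩, sub_add_cancel x a⟩
      · rintro ⟨y, rfl⟩
        show (y : EuclideanSpace ℝ (Fin n)) + a - a ∈ S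
        rw [add_sub_cancel_right]
        exact y.2
    have hμ : (μHE[k] : Measure S) = volume := by
      rw [← hS]
      exact InnerProductSpace.euclideanHausdorffMeasure_eq_volume
    have hcoord : Measurable fun x : EuclideanSpace ℝ (Fin n) => (fun i => x i : Fin n → ℝ) := by
      fun_prop
    have hGm : Measurable fun x : EuclideanSpace ℝ (Fin n) => G (fun i => x i) := hG.comp hcoord
    rw [hr, ← hg.map_euclideanHausdorffMeasure, hμ,
      lintegral_map hGm hg.continuous.measurable]
    have h1 := b.measurePreserving_repr_symm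
    have h2 := (EuclideanSpace.volume_preserving_symm_measurableEquiv_toLp (Fin k)).symm
    have hGg : Measurable fun y : S => G (fun i => g y i) := hGm.comp hg.continuous.measurable
    rw [← h1.lintegral_comp hGg]
    refine (h2.lintegral_comp (hGg.comp h1.measurable)).symm.trans ?_
    refine lintegral_congr fun x => ?_
    show G (fun i => g (b.repr.symm ((MeasurableEquiv.toLp 2 (Fin k → ℝ)) x)) i) = _
    refine congrArg G ?_
    funext i
    have : ((b.repr.symm ((MeasurableEquiv.toLp 2 (Fin _ → ℝ)) x) : S) :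
        EuclideanSpace ℝ (Fin n)) i
        = (fun d => (b d : EuclideanSpace ℝ (Fin n)) i) ⬝ᵥ x := by
      rw [← b.sum_repr_symm]
      simp [dotProduct, mul_comm]
    show ((b.repr.symm ((MeasurableEquiv.toLp 2 (Fin _ → ℝ)) x) : S) :
        EuclideanSpace ℝ (Fin n)) i + a i = _
    rw [sub_neg_eq_add, this]

end Pool.Agent.H85.SL
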