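import Mathlib
import Pool.Graph.R_pool_sql_team_seeded_f0cf7b00.H100R2.Mah.E1_cauchyBinet

/-!
# The Cauchy-Binet formula over increasing maps, and the volume of a parallelotope
-/

set_option autoImplicit false

namespace Pool.Agent.H85.SL

open MeasureTheory Matrix
open scoped ENNReal

theorem volQ (k : ℕ) (w : Fin k → Fin k → ℝ) (c : Fin k → ℝ) (h : (Matrix.of w).det ≠ 0) :
    volume {x : Fin k → ℝ | ∀ a, |w a ⬝ᵥ x - c a| ≤ 1 / 2} =
      ENNReal.ofReal (1 / |(Matrix.of w).det|) := by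
  have hd : LinearMap.det (Matrix.toLin' (Matrix.of w)) ≠ 0 := by
    rwa [LinearMap.det_toLin']
  have hset : {x : Fin k → ℝ | ∀ a, |w a ⬝ᵥ x - c a| ≤ 1 / 2} =
      (Matrix.toLin' (Matrix.of w)) ⁻¹'
        Set.Icc (fun a => c a - 1 / 2) (fun a => c a + 1 / 2) := by
    ext x
    simp only [Set.mem_ofPred_eq, Set.mem_preimage, Set.mem_Icc, Pi.le_def, Matrix.toLin'_apply,
      Matrix.mulVec, Matrix.of_apply, abs_le]
    constructor
    · intro hx
      exact ⟨fun a => by linarith [(hx a).1], fun a => by linarith [(hx a).2]⟩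
    · rintro ⟨h1, h2⟩ a
      exact ⟨by linarith [h1 a], by linarith [h2 a]⟩
  rw [hset, Measure.addHaar_preimage_linearMap _ hd, LinearMap.det_toLin', Real.volume_Icc_pi]
  have e : ∀ a : Fin k, ENNReal.ofReal (c a + 1 / 2 - (c a - 1 / 2)) = 1 := by
    intro a
    rw [show c a + 1 / 2 - (c a - 1 / 2) = 1 by ring, ENNReal.ofReal_one]
  simp only [e, Finset.prod_const_one, mul_one]
  rw [abs_inv, one_div]

theorem sum_fun {n k : ℕ} (g : (Fin k → Fin n) → ℝ)
    (hperm : ∀ (σ : Fin k → Fin n) (ρ : Equiv.Perm (Fin k)), g (σ ∘ ρ) = g σ)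
    (hinj : ∀ σ : Fin k → Fin n, ¬ Function.Injective σ → g σ = 0) :
    ∑ σ, g σ = (k.factorial : ℝ) * ∑ I : Fin k ↪o Fin n, g I := by
  classical
  obtain ⟨Φ, hΦ⟩ : ∃ Φ : (Fin k ↪o Fin n) × Equiv.Perm (Fin k) → (Fin k → Fin n),
      Φ = fun p => p.1 ∘ p.2 := ⟨_, rfl⟩
  have hΦi : Function.Injective Φ := by
    rintro ⟨I, ρ⟩ ⟨J, τ⟩ h
    rw [hΦ] at h
    simp only at h
    have hr : Set.range I = Set.range J := by
      have h1 : Set.range (I ∘ ρ) = Set.range I := ρ.surjective.range_comp I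
      have h2 : Set.range (J ∘ τ) = Set.range J := τ.surjective.range_comp J
      rw [← h1, ← h2, h]
    have hIJ : I = J := OrderEmbedding.range_inj.1 hr
    subst hIJ
    have : ρ = τ := by
      ext a
      have h3 := congrFun h a
      simp only [Function.comp_apply] at h3
      exact congrArg _ (I.injective h3)
    rw [this]
  have h1 : ∑ σ, g σ = ∑ σ ∈ Finset.univ.image Φ, g σ := by
    symm
    refine Finset.sum_subset (Finset.subset_univ _) ?_
    intro σ _ hσ
    refine hinj σ fun hs => hσ ?_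
    rw [Finset.mem_image]
    have hmono : StrictMono (σ ∘ Tuple.sort σ) :=
      (Tuple.monotone_sort σ).strictMono_of_injective (hs.comp (Tuple.sort σ).injective)
    refine ⟨(OrderEmbedding.ofStrictMono _ hmono, (Tuple.sort σ)⁻¹), Finset.mem_univ _, ?_⟩
    rw [hΦ]
    funext a
    simp
  rw [h1, Finset.sum_image fun _ _ _ _ h => hΦi h, Fintype.sum_prod_type, Finset.mul_sum]
  refine Finset.sum_congr rfl fun I _ => ?_
  have h2 : ∀ ρ : Equiv.Perm (Fin k), g (Φ (I, ρ)) = g I := by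
    intro ρ
    rw [hΦ]
    exact hperm I ρ
  simp only [h2, Finset.sum_const, Finset.card_univ, Fintype.card_perm, Fintype.card_fin,
    nsmul_eq_mul]

theorem binet (n k : ℕ) (u : Fin n → Fin k → ℝ) :
    (∑ i, vecMulVec (u i) (u i)).det =
      ∑ I : Fin k ↪o Fin n, (Matrix.det (Matrix.of fun a b => u (I a) b)) ^ 2 := by
  have h := Pool.Agent.H224R2.Mah.E1_cauchyBinet (n := k) (ι := Fin n) (fun _ => 1) u
  have e1 : Pool.Agent.H224R2.Mah.mat (fun _ : Fin n => (1 : ℝ)) u =
      ∑ i, vecMulVec (u i) (u i) := by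
    unfold Pool.Agent.H224R2.Mah.mat
    simp
  rw [e1] at h
  simp only [Finset.prod_const_one, mul_one] at h
  have h2 := sum_fun (n := n) (k := k) (fun σ => (Matrix.of fun a => u (σ a)).det ^ 2) ?_ ?_
  · rw [h2] at h
    have hk : (k.factorial : ℝ) ≠ 0 := by exact_mod_cast k.factorial_ne_zero
    exact mul_left_cancel₀ hk h
  · intro σ ρ
    have e : (Matrix.of fun a => u ((σ ∘ ρ) a)) = (Matrix.of fun a => u (σ a)).submatrix ρ id := by
      ext a b
      simp
    have hs : (((Equiv.Perm.sign ρ : ℤˣ) : ℤ) : ℝ) ^ 2 = 1 := by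
      rcases Int.units_eq_one_or (Equiv.Perm.sign ρ) with h | h <;> simp [h]
    rw [e, Matrix.det_permute, mul_pow, hs, one_mul]
  · intro σ hσ
    simp only [Function.Injective, not_forall] at hσ
    obtain ⟨a, b, hab, hne⟩ := hσ
    rw [Matrix.det_zero_of_row_eq hne (by
      funext j
      simp [hab])]
    simp

end Pool.Agent.H85.SL
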