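import Pool.Agent.H85.SL.Shift

/-!
# Products of even log-concave densities
-/

set_option autoImplicit false

namespace Pool.Agent.H85.SL

open MeasureTheory Matrix
open scoped ENNReal

/-- The function `f` is measurable, even and log-concave, its values are at most `1` and its integral
is at most `1`. -/
structure IsDens (f : ℝ → ℝ≥0∞) : Prop where
  meas : Measurable f
  even : ∀ t, f (-t) = f t
  lc : ∀ s : ℝ, 0 < s → s < 1 → ∀ x y, f x ^ s * f y ^ (1 - s) ≤ f (s * x + (1 - s) * y)
  le_one : ∀ t, f t ≤ 1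
  int : ∫⁻ t, f t ≤ 1

/-- The indicator function of the interval `[-1/2, 1/2]`. -/
noncomputable def chi : ℝ → ℝ≥0∞ := (Set.Icc (-(1 / 2) : ℝ) (1 / 2)).indicator 1

theorem chi_dens : IsDens chi where
  meas := measurable_one.indicator measurableSet_Icc
  even t := by
    unfold chi
    by_cases h : t ∈ Set.Icc (-(1 / 2) : ℝ) (1 / 2)
    · have h' : -t ∈ Set.Icc (-(1 / 2) : ℝ) (1 / 2) := ⟨by linarith [h.2], by linarith [h.1]⟩
      rw [Set.indicator_of_mem h, Set.indicator_of_mem h']
      rfl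
    · have h' : -t ∉ Set.Icc (-(1 / 2) : ℝ) (1 / 2) := fun h' =>
        h ⟨by linarith [h'.2], by linarith [h'.1]⟩
      rw [Set.indicator_of_notMem h, Set.indicator_of_notMem h']
  lc s h0 h1 x y := by
    unfold chi
    by_cases hx : x ∈ Set.Icc (-(1 / 2) : ℝ) (1 / 2)
    · by_cases hy : y ∈ Set.Icc (-(1 / 2) : ℝ) (1 / 2)
      · have hz : s * x + (1 - s) * y ∈ Set.Icc (-(1 / 2) : ℝ) (1 / 2) := by
          constructor
          · nlinarith [hx.1, hy.1]
          · nlinarith [hx.2, hy.2]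
        rw [Set.indicator_of_mem hx, Set.indicator_of_mem hy, Set.indicator_of_mem hz]
        simp
      · rw [Set.indicator_of_notMem hy, ENNReal.zero_rpow_of_pos (by linarith), mul_zero]
        exact bot_le
    · rw [Set.indicator_of_notMem hx, ENNReal.zero_rpow_of_pos h0, zero_mul]
      exact bot_le
  le_one t := by
    unfold chi
    exact Set.indicator_le_self' (fun _ _ => bot_le) t
  int := by
    unfold chi
    rw [lintegral_indicator_one measurableSet_Icc, Real.volume_Icc]
    norm_num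

theorem dot_meas {k : ℕ} (w : Fin k → ℝ) (c : ℝ) : Measurable fun x : Fin k → ℝ => w ⬝ᵥ x - c := by
  have h : Continuous fun x : Fin k → ℝ => w ⬝ᵥ x - c :=
    (Continuous.dotProduct continuous_const continuous_id).sub continuous_const
  exact h.measurable

/-- The product of the `f i (u i ⬝ᵥ x - c i)`. -/
noncomputable def pr {n k : ℕ} (u : Fin n → Fin k → ℝ) (c : Fin n → ℝ) (f : Fin n → ℝ → ℝ≥0∞)
    (S : Finset (Fin n)) (x : Fin k → ℝ) : ℝ≥0∞ := ∏ i ∈ S, f i (u i ⬝ᵥ x - c i)

theorem pr_meas {n k : ℕ} (u : Fin n → Fin k → ℝ) (c : Fin n → ℝ) {f : Fin n → ℝ → ℝ≥0∞}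
    (hf : ∀ i, IsDens (f i)) (S : Finset (Fin n)) : Measurable (pr u c f S) := by
  unfold pr
  exact Finset.measurable_prod _ fun i _ => (hf i).meas.comp (dot_meas _ _)

theorem pr_lc {n k : ℕ} (u : Fin n → Fin k → ℝ) (c d : Fin n → ℝ) {f : Fin n → ℝ → ℝ≥0∞}
    (hf : ∀ i, IsDens (f i)) (S : Finset (Fin n)) (s : ℝ) (h0 : 0 < s) (h1 : s < 1)
    (x y : Fin k → ℝ) :
    pr u c f S x ^ s * pr u d f S y ^ (1 - s) ≤
      pr u (fun i => s * c i + (1 - s) * d i) f S (s • x + (1 - s) • y) := by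
  unfold pr
  rw [← ENNReal.prod_rpow_of_nonneg h0.le, ← ENNReal.prod_rpow_of_nonneg (by linarith),
    ← Finset.prod_mul_distrib]
  refine Finset.prod_le_prod' fun i _ => ?_
  refine ((hf i).lc s h0 h1 _ _).trans (le_of_eq ?_)
  congr 1
  simp only [dotProduct_add, dotProduct_smul, smul_eq_mul]
  ring

theorem pr_even {n k : ℕ} (u : Fin n → Fin k → ℝ) (c : Fin n → ℝ) {f : Fin n → ℝ → ℝ≥0∞}
    (hf : ∀ i, IsDens (f i)) (S : Finset (Fin n)) (x : Fin k → ℝ) :
    pr u (fun i => - c i) f S (-x) = pr u c f S x := by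
  unfold pr
  refine Finset.prod_congr rfl fun i _ => ?_
  rw [← (hf i).even (u i ⬝ᵥ x - c i), dotProduct_neg]
  congr 1
  ring

/-- The integral is largest for the central position. -/
theorem pr_shift {n k : ℕ} (u : Fin n → Fin k → ℝ) (c : Fin n → ℝ) {f : Fin n → ℝ → ℝ≥0∞}
    (hf : ∀ i, IsDens (f i)) :
    ∫⁻ x, pr u c f Finset.univ x ≤ ∫⁻ x, pr u 0 f Finset.univ x := by
  have h := Pool.Agent.TH264.MP.pl k (1 / 2) (by norm_num) (by norm_num)
    (pr u c f Finset.univ) (pr u (fun i => - c i) f Finset.univ) (pr u 0 f Finset.univ)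
    (pr_meas u c hf _) (pr_meas u _ hf _) (pr_meas u 0 hf _) ?_
  · have e1 : ∫⁻ x, pr u (fun i => - c i) f Finset.univ x = ∫⁻ x, pr u c f Finset.univ x := by
      rw [← lintegral_neg_eq_self]
      exact lintegral_congr fun x => pr_even u c hf _ x
    rw [e1, ← ENNReal.rpow_add_of_nonneg _ _ (by norm_num) (by norm_num)] at h
    norm_num at h
    exact h
  · intro x y
    have h := pr_lc u c (fun i => - c i) hf Finset.univ (1 / 2) (by norm_num) (by norm_num) x y
    have e : (fun i => 1 / 2 * c i + (1 - 1 / 2) * - c i) = (0 : Fin n → ℝ) := by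
      funext i
      simp only [Pi.zero_apply]
      ring
    rwa [e] at h

/-- Statement of the one-dimensional comparison. -/
def Bath : Prop := ∀ (k : ℕ) (g : (Fin k → ℝ) → ℝ≥0∞), Measurable g → (∀ x, g (-x) = g x) →
  (∀ s : ℝ, 0 < s → s < 1 → ∀ x y, g x ^ s * g y ^ (1 - s) ≤ g (s • x + (1 - s) • y)) →
  ∀ (w : Fin k → ℝ) (f : ℝ → ℝ≥0∞), Measurable f → (∀ t, f t ≤ 1) → ∫⁻ t, f t ≤ 1 →
  ∫⁻ x, f (w ⬝ᵥ x) * g x ≤ ∫⁻ x, (Set.Icc (-(1/2) : ℝ) (1/2)).indicator 1 (w ⬝ᵥ x) * g x

theorem replace (hB : Bath) {n k : ℕ} (u : Fin n → Fin k → ℝ) {f : Fin n → ℝ → ℝ≥0∞}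
    (hf : ∀ i, IsDens (f i)) (S : Finset (Fin n)) :
    ∫⁻ x, pr u 0 f Finset.univ x ≤
      ∫⁻ x, pr u 0 (fun i => if i ∈ S then chi else f i) Finset.univ x := by
  classical
  induction S using Finset.induction_on with
  | empty => simp
  | insert i S hi ih =>
    refine ih.trans ?_
    have hF : ∀ (T : Finset (Fin n)) (j : Fin n), IsDens ((fun j => if j ∈ T then chi else f j) j) := by
      intro T j
      by_cases h : j ∈ T
      · simp only [h, if_true]
        exact chi_dens
      · simp only [h, if_false]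
        exact hf j
    have e1 : ∀ x, pr u 0 (fun j => if j ∈ S then chi else f j) Finset.univ x =
        f i (u i ⬝ᵥ x) * pr u 0 (fun j => if j ∈ S then chi else f j) (Finset.univ.erase i) x := by
      intro x
      unfold pr
      rw [← Finset.mul_prod_erase _ _ (Finset.mem_univ i)]
      simp [hi]
    have e2 : ∀ x, pr u 0 (fun j => if j ∈ insert i S then chi else f j) Finset.univ x =
        (Set.Icc (-(1/2) : ℝ) (1/2)).indicator 1 (u i ⬝ᵥ x) *
          pr u 0 (fun j => if j ∈ S then chi else f j) (Finset.univ.erase i) x := by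
      intro x
      unfold pr
      rw [← Finset.mul_prod_erase _ _ (Finset.mem_univ i)]
      congr 1
      · simp [chi]
      · refine Finset.prod_congr rfl fun j hj => ?_
        have hji : j ≠ i := (Finset.mem_erase.1 hj).1
        simp only [Finset.mem_insert, hji, false_or]
    simp only [e1, e2]
    refine hB k _ (pr_meas u 0 (hF S) _) ?_ ?_ (u i) (f i) (hf i).meas (hf i).le_one (hf i).int
    · intro x
      have h := pr_even u 0 (hF S) (Finset.univ.erase i) x
      have e : (fun i => - (0 : Fin n → ℝ) i) = 0 := by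
        funext i
        simp
      rwa [e] at h
    · intro s h0 h1 x y
      have h := pr_lc u 0 0 (hF S) (Finset.univ.erase i) s h0 h1 x y
      have e : (fun i => s * (0 : Fin n → ℝ) i + (1 - s) * (0 : Fin n → ℝ) i) = 0 := by
        funext i
        simp
      rwa [e] at h

theorem dens_le (hB : Bath) {n k : ℕ} (u : Fin n → Fin k → ℝ) (c : Fin n → ℝ)
    {f : Fin n → ℝ → ℝ≥0∞} (hf : ∀ i, IsDens (f i)) :
    ∫⁻ x, ∏ i, f i (u i ⬝ᵥ x - c i) ≤ volume (slabs u 0) := by
  refine (pr_shift u c hf).trans ((replace hB u hf Finset.univ).trans (le_of_eq ?_))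
  rw [← lintegral_indicator_one (slabs_meas u 0)]
  refine lintegral_congr fun x => ?_
  unfold pr
  simp only [Finset.mem_univ, if_true]
  by_cases h : x ∈ slabs u 0
  · rw [Set.indicator_of_mem h]
    refine Finset.prod_eq_one fun i _ => ?_
    have h1 := abs_le.1 (h i)
    unfold chi
    rw [Set.indicator_of_mem]
    · rfl
    · exact ⟨by linarith [h1.1], by linarith [h1.2]⟩
  · rw [Set.indicator_of_notMem h]
    unfold slabs at h
    simp only [Set.mem_ofPred_eq, not_forall] at h
    obtain ⟨i, hi⟩ := h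
    refine Finset.prod_eq_zero (Finset.mem_univ i) ?_
    unfold chi
    rw [Set.indicator_of_notMem]
    intro h2
    exact hi (abs_le.2 ⟨by linarith [h2.1], by linarith [h2.2]⟩)

end Pool.Agent.H85.SL
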