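import Pool.Graph.R_seed8.TH264.MP.PL
import Pool.Graph.R_seed8.Results.MP_589a62_gt.MaximalSections

/-!
# Intersections of slabs in arbitrary position
-/

set_option autoImplicit false

namespace Pool.Agent.H85.SL

open MeasureTheory Matrix
open scoped ENNReal

/-- The intersection of the slabs `|u i ⬝ᵥ x - c i| ≤ 1 / 2`. -/
def slabs {n k : ℕ} (u : Fin n → Fin k → ℝ) (c : Fin n → ℝ) : Set (Fin k → ℝ) :=
  {x | ∀ i, |u i ⬝ᵥ x - c i| ≤ 1 / 2}

theorem slabs_meas {n k : ℕ} (u : Fin n → Fin k → ℝ) (c : Fin n → ℝ) :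
    MeasurableSet (slabs u c) := by
  have : slabs u c = ⋂ i, {x | |u i ⬝ᵥ x - c i| ≤ 1 / 2} := by
    ext x
    simp [slabs]
  rw [this]
  refine MeasurableSet.iInter fun i => ?_
  refine (isClosed_le ?_ continuous_const).measurableSet
  exact ((Continuous.dotProduct continuous_const continuous_id).sub continuous_const).abs

theorem slabs_neg {n k : ℕ} (u : Fin n → Fin k → ℝ) (c : Fin n → ℝ) :
    volume (slabs u (fun i => - c i)) = volume (slabs u c) := by
  have h : slabs u (fun i => - c i) = - slabs u c := by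
    ext x
    simp only [slabs, Set.mem_ofPred_eq, Set.mem_neg]
    refine forall_congr' fun i => ?_
    rw [dotProduct_neg, ← abs_neg]
    have : -(u i ⬝ᵥ x - -c i) = -(u i ⬝ᵥ x) - c i := by ring
    rw [this]
  rw [h, Measure.measure_neg]

/-- The intersection of slabs is largest if they are centred at the origin. -/
theorem shift {n k : ℕ} (u : Fin n → Fin k → ℝ) (c : Fin n → ℝ) :
    volume (slabs u c) ≤ volume (slabs u 0) := by
  have h := Pool.Agent.TH264.MP.pl k (1 / 2) (by norm_num) (by norm_num)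
    ((slabs u c).indicator 1) ((slabs u (fun i => - c i)).indicator 1) ((slabs u 0).indicator 1)
    (measurable_one.indicator (slabs_meas _ _)) (measurable_one.indicator (slabs_meas _ _))
    (measurable_one.indicator (slabs_meas _ _)) ?_
  · rw [lintegral_indicator_one (slabs_meas _ _), lintegral_indicator_one (slabs_meas _ _),
      lintegral_indicator_one (slabs_meas _ _), slabs_neg] at h
    have e : volume (slabs u c) ^ (1 / 2 : ℝ) * volume (slabs u c) ^ (1 - 1 / 2 : ℝ) =
        volume (slabs u c) := by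
      rw [← ENNReal.rpow_add_of_nonneg _ _ (by norm_num) (by norm_num)]
      norm_num
    rwa [e] at h
  · intro x y
    by_cases hx : x ∈ slabs u c
    · by_cases hy : y ∈ slabs u (fun i => - c i)
      · have hz : (1 / 2 : ℝ) • x + (1 - 1 / 2 : ℝ) • y ∈ slabs u 0 := by
          intro i
          have h1 := hx i
          have h2 := hy i
          rw [abs_le] at h1 h2 ⊢
          simp only [dotProduct_add, dotProduct_smul, smul_eq_mul, Pi.zero_apply]
          constructor <;> linarith [h1.1, h1.2, h2.1, h2.2]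
        rw [Set.indicator_of_mem hx, Set.indicator_of_mem hy, Set.indicator_of_mem hz]
        simp
      · rw [Set.indicator_of_notMem hy, ENNReal.zero_rpow_of_pos (by norm_num), mul_zero]
        exact bot_le
    · rw [Set.indicator_of_notMem hx, ENNReal.zero_rpow_of_pos (by norm_num), zero_mul]
      exact bot_le

open Pool.Agent.Helper7.Simplex in
/-- The sharp inequality for arbitrary slabs, determinant form. -/
theorem slab_det (n k : ℕ) (hk : 1 ≤ k) (hn : 2 * k ≤ n) (u : Fin n → Fin k → ℝ)
    (c : Fin n → ℝ) :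
    volume (slabs u c) ^ 2 * ENNReal.ofReal (∑ i, vecMulVec (u i) (u i)).det ≤
      ENNReal.ofReal (((n / k : ℕ) : ℝ) ^ (k - n % k) * (((n / k : ℕ) : ℝ) + 1) ^ (n % k)) := by
  rcases le_or_gt (∑ i, vecMulVec (u i) (u i)).det 0 with h0 | hdet
  · rw [ENNReal.ofReal_of_nonpos h0, mul_zero]
    exact bot_le
  have hl : 2 ≤ n / k := (Nat.le_div_iff_mul_le (by omega)).mpr hn
  have hN : n ≤ (n / k + 1) * k := by
    have := Nat.div_add_mod n k
    have h2 := Nat.mod_lt n (show 0 < k by omega)
    nlinarith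
  have hc := OT.J31279.core u (n / k + 1) (by omega) (by rw [Fintype.card_fin]; exact hN)
    hdet (fun m w hdet => J7756.E_factor w hdet)
    (fun A hA Vol h1 h2 => Cube.J21031.C_extremal (fun G hG u => J7756.E_det G hG u) u (n / k + 1)
      (by omega) A hA (by rw [Fintype.card_fin]; exact hN) hdet Vol h1 h2)
    (fun m w hI hc hc' => OT.iso3 w hI (n / k + 1) (by omega) hc hc')
  rw [Fintype.card_fin, Cube.J21033.numV n k hk (by omega)] at hc
  have hs : slabs u 0 = {x : Fin k → ℝ | ∀ i, |u i ⬝ᵥ x| ≤ 1 / 2} := by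
    ext x
    simp [slabs]
  have h1 : volume (slabs u c) * ENNReal.ofReal (√((∑ i, vecMulVec (u i) (u i)).det)) ≤
      ENNReal.ofReal (√(((n / k : ℕ) : ℝ) ^ (k - n % k) * (((n / k : ℕ) : ℝ) + 1) ^ (n % k))) := by
    refine le_trans ?_ hc
    rw [← hs]
    exact mul_le_mul' (shift u c) le_rfl
  have h2 := pow_le_pow_left' h1 2
  rw [mul_pow, ← ENNReal.ofReal_pow (Real.sqrt_nonneg _), Real.sq_sqrt hdet.le,
    ← ENNReal.ofReal_pow (Real.sqrt_nonneg _), Real.sq_sqrt (by positivity)] at h2
  exact h2

end Pool.Agent.H85.SL
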